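import Mathlib
import Pool.Agent.H.MP_ce2c94_gt.h46.Ball

set_option autoImplicit false

/-!
# Exact splitting of packed integer polynomials into positive and negative parts

If the `l^1` norm is below `2^(b-1)` then the digits of `a + O` (`O = 2^(b-1) (1 + B + ..)`) are the
shifted coefficients, so the positive and the negative parts, their norms and the truncation toward
zero of all coefficients are computed exactly by a few `Nat` operations.
-/

namespace Pool.MP_ce2c94_gt.h88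

open Pool.Agent.H.MP_ce2c94_gt.h46 AddMonoidAlgebra

theorem sum_of_digits {b D x : ℕ} (f : ℕ → ℕ) (hx : x < (2 ^ b) ^ D)
    (h : ∀ i < D, x / (2 ^ b) ^ i % 2 ^ b = f i) :
    x = ∑ i ∈ Finset.range D, f i * (2 ^ b) ^ i := by
  conv_lhs => rw [dig_sum (2 ^ b) D x hx]
  exact Finset.sum_congr rfl fun i hi => by rw [h i (Finset.mem_range.1 hi)]

theorem sum_lt {b : ℕ} : ∀ (D : ℕ) (f : ℕ → ℕ), (∀ i < D, f i < 2 ^ b) →
    ∑ i ∈ Finset.range D, f i * (2 ^ b) ^ i < (2 ^ b) ^ D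
  | 0, _, _ => by simp
  | D + 1, f, hf => by
    rw [Finset.sum_range_succ, pow_succ]
    have h1 := sum_lt D f fun i hi => hf i (by omega)
    have h2 : f D + 1 ≤ 2 ^ b := hf D (by omega)
    have h3 : (f D + 1) * (2 ^ b) ^ D ≤ 2 ^ b * (2 ^ b) ^ D := Nat.mul_le_mul_right _ h2
    have h4 : (f D + 1) * (2 ^ b) ^ D = f D * (2 ^ b) ^ D + (2 ^ b) ^ D := by ring
    rw [mul_comm ((2 ^ b) ^ D) (2 ^ b)]
    omega

/-- the top bit of a digit -/
theorem and_top {b g : ℕ} (hb : 1 ≤ b) (hg : g < 2 ^ b) :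
    g &&& 2 ^ (b - 1) = if 2 ^ (b - 1) ≤ g then 2 ^ (b - 1) else 0 := by
  rw [Nat.and_two_pow]
  have e : 2 ^ b = 2 * 2 ^ (b - 1) := by rw [← pow_succ']; congr 1; omega
  by_cases h : 2 ^ (b - 1) ≤ g
  · have h1 : g.testBit (b - 1) = true := by
      rw [Nat.testBit_eq_decide_div_mod_eq]
      have : g / 2 ^ (b - 1) = 1 := by
        apply Nat.div_eq_of_lt_le
        · omega
        · omega
      simp [this]
    simp [h, h1]
  · have h1 : g.testBit (b - 1) = false := Nat.testBit_lt_two_pow (by omega)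
    simp [h, h1]

/-- the number with the digits `g` -/
theorem and_sum {b D : ℕ} {f g : ℕ → ℕ} (hf : ∀ i < D, f i < 2 ^ b) (hg : ∀ i < D, g i < 2 ^ b) :
    (∑ i ∈ Finset.range D, f i * (2 ^ b) ^ i) &&& (∑ i ∈ Finset.range D, g i * (2 ^ b) ^ i)
      = ∑ i ∈ Finset.range D, (f i &&& g i) * (2 ^ b) ^ i := by
  refine sum_of_digits (fun i => f i &&& g i) ?_ ?_
  · exact lt_of_le_of_lt Nat.and_le_left (sum_lt D f hf)
  · intro i hi
    rw [and_dig, dig_of_sum (2 ^ b) D f hf i hi, dig_of_sum (2 ^ b) D g hg i hi]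

/-- kernel side: the positive digits of `a` -/
def posF (b O a : ℕ) : ℕ :=
  Nat.land (Nat.add a O) (Nat.sub (Nat.land (Nat.add a O) O)
    (Nat.shiftRight (Nat.land (Nat.add a O) O) (Nat.pred b)))

/-- THE SPLITTING -/
theorem posF_eq {b D a O : ℕ} {f : ℕ → ℤ} (hb : 1 ≤ b) (hf : ∀ i < D, 2 * |f i| < 2 ^ b)
    (ha : (a : ℤ) = ∑ i ∈ Finset.range D, f i * (2 ^ b) ^ i)
    (hO : O = 2 ^ (b - 1) * ∑ i ∈ Finset.range D, 1 * (2 ^ b) ^ i) :
    posF b O a = ∑ i ∈ Finset.range D, (f i).toNat * (2 ^ b) ^ i := by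
  have e2 : 2 ^ b = 2 * 2 ^ (b - 1) := by rw [← pow_succ']; congr 1; omega
  have e2z : (2 : ℤ) ^ b = 2 * 2 ^ (b - 1) := by exact_mod_cast e2
  have hpos : 0 < 2 ^ (b - 1) := Nat.two_pow_pos _
  have hO' : O = ∑ i ∈ Finset.range D, 2 ^ (b - 1) * (2 ^ b) ^ i := by
    rw [hO, Finset.mul_sum]
    exact Finset.sum_congr rfl fun i _ => by ring
  have hfi : ∀ i < D, -(2 : ℤ) ^ (b - 1) < f i ∧ f i < 2 ^ (b - 1) := fun i hi => by
    have h := hf i hi
    rw [e2z] at h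
    exact abs_lt.1 (by linarith)
  have hfn : ∀ i < D, -((2 ^ (b - 1) : ℕ) : ℤ) < f i ∧ f i < ((2 ^ (b - 1) : ℕ) : ℤ) := fun i hi => by
    have := hfi i hi; push_cast; exact this
  have hq : Nat.add a O = ∑ i ∈ Finset.range D, (f i + 2 ^ (b - 1)).toNat * (2 ^ b) ^ i := by
    have : ((a + O : ℕ) : ℤ) = ((∑ i ∈ Finset.range D, (f i + 2 ^ (b - 1)).toNat * (2 ^ b) ^ i : ℕ) : ℤ) := by
      push_cast
      rw [ha, hO']
      push_cast
      rw [← Finset.sum_add_distrib]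
      refine Finset.sum_congr rfl fun i hi => ?_
      rw [Int.toNat_of_nonneg (by linarith [(hfi i (Finset.mem_range.1 hi)).1])]
      ring
    exact_mod_cast this
  have hqd : ∀ i < D, (f i + 2 ^ (b - 1)).toNat < 2 ^ b := fun i hi => by
    have := hfn i hi
    have e : (2 : ℤ) ^ (b - 1) = ((2 ^ (b - 1) : ℕ) : ℤ) := by push_cast; ring
    rw [e, e2]; omega
  have hu : Nat.land (Nat.add a O) O
      = ∑ i ∈ Finset.range D, (if 0 ≤ f i then 2 ^ (b - 1) else 0) * (2 ^ b) ^ i := by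
    show (Nat.add a O) &&& O = _
    rw [hq]
    conv_lhs => rw [hO']
    rw [and_sum hqd fun i _ => by omega]
    refine Finset.sum_congr rfl fun i hi => ?_
    rw [and_top hb (hqd i (Finset.mem_range.1 hi))]
    congr 1
    have := hfn i (Finset.mem_range.1 hi)
    have e : (2 : ℤ) ^ (b - 1) = ((2 ^ (b - 1) : ℕ) : ℤ) := by push_cast; ring
    rw [e]
    by_cases h : 0 ≤ f i
    · rw [if_pos h, if_pos (by omega)]
    · rw [if_neg h, if_neg (by omega)]
  have hr : Nat.shiftRight (Nat.land (Nat.add a O) O) (Nat.pred b)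
      = ∑ i ∈ Finset.range D, (if 0 ≤ f i then 1 else 0) * (2 ^ b) ^ i := by
    show (Nat.land (Nat.add a O) O) >>> (b - 1) = _
    rw [hu, Nat.shiftRight_eq_div_pow]
    have : ∑ i ∈ Finset.range D, (if 0 ≤ f i then 2 ^ (b - 1) else 0) * (2 ^ b) ^ i
        = 2 ^ (b - 1) * ∑ i ∈ Finset.range D, (if 0 ≤ f i then 1 else 0) * (2 ^ b) ^ i := by
      rw [Finset.mul_sum]
      refine Finset.sum_congr rfl fun i _ => ?_
      split_ifs <;> ring
    rw [this, Nat.mul_div_cancel_left _ hpos]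
  have hm : Nat.sub (Nat.land (Nat.add a O) O) (Nat.shiftRight (Nat.land (Nat.add a O) O) (Nat.pred b))
      = ∑ i ∈ Finset.range D, (if 0 ≤ f i then 2 ^ (b - 1) - 1 else 0) * (2 ^ b) ^ i := by
    rw [hr, hu]
    refine (Nat.sub_eq_iff_eq_add ?_).2 ?_
    · refine Finset.sum_le_sum fun i _ => Nat.mul_le_mul_right _ ?_
      split_ifs <;> omega
    · rw [← Finset.sum_add_distrib]
      refine Finset.sum_congr rfl fun i _ => ?_
      split_ifs
      · rw [← add_mul]; congr 1; omega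
      · ring
  rw [posF, hm]
  show (Nat.add a O) &&& _ = _
  rw [hq, and_sum hqd fun i _ => by split_ifs <;> omega]
  refine Finset.sum_congr rfl fun i hi => ?_
  congr 1
  have h := hfn i (Finset.mem_range.1 hi)
  have e : (2 : ℤ) ^ (b - 1) = ((2 ^ (b - 1) : ℕ) : ℤ) := by push_cast; ring
  rw [e]
  split_ifs with h0
  · rw [Nat.and_two_pow_sub_one_eq_mod]
    have : (f i + ((2 ^ (b - 1) : ℕ) : ℤ)).toNat = (f i).toNat + 2 ^ (b - 1) := by omega
    rw [this, Nat.add_mod_right, Nat.mod_eq_of_lt (by omega)]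
  · rw [Nat.and_zero]; omega

/-- the negative part -/
theorem neg_eq {b D a p : ℕ} {f : ℕ → ℤ}
    (ha : (a : ℤ) = ∑ i ∈ Finset.range D, f i * (2 ^ b) ^ i)
    (hp : p = ∑ i ∈ Finset.range D, (f i).toNat * (2 ^ b) ^ i) :
    Nat.sub p a = ∑ i ∈ Finset.range D, (-f i).toNat * (2 ^ b) ^ i := by
  have h : (p : ℤ) = a + ((∑ i ∈ Finset.range D, (-f i).toNat * (2 ^ b) ^ i : ℕ) : ℤ) := by
    rw [hp, ha]
    push_cast
    rw [← Finset.sum_add_distrib]
    refine Finset.sum_congr rfl fun i _ => ?_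
    rw [← add_mul]
    congr 1
    omega
  show p - a = _
  have h' : p = a + ∑ i ∈ Finset.range D, (-f i).toNat * (2 ^ b) ^ i := by exact_mod_cast h
  omega

/-- the digit sum is the remainder -/
theorem mod_sum {b D : ℕ} {g : ℕ → ℕ} (h : ∑ i ∈ Finset.range D, g i < 2 ^ b - 1) :
    (∑ i ∈ Finset.range D, g i * (2 ^ b) ^ i) % (2 ^ b - 1) = ∑ i ∈ Finset.range D, g i := by
  have h1 : (∑ i ∈ Finset.range D, g i * (2 ^ b) ^ i) ≡ ∑ i ∈ Finset.range D, g i
      [MOD (2 ^ b - 1)] := by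
    refine Nat.ModEq.sum fun i _ => ?_
    have := (pow_mod_sub_one (2 ^ b) Nat.one_le_two_pow i).mul_left (g i)
    simpa using this
  have h2 := h1
  unfold Nat.ModEq at h2
  rw [h2, Nat.mod_eq_of_lt h]

/-- digits of the shifted and masked number -/
theorem shift_dig {b D t s n : ℕ} {x : ℕ → ℕ} (ht : t ≤ b) (hx : ∀ i < D, x i < 2 ^ b) :
    (((∑ i ∈ Finset.range D, x i * (2 ^ b) ^ i) >>> (t + b * s)) / (2 ^ b) ^ n % 2 ^ b)
      &&& (2 ^ (b - t) - 1) = if n + s < D then x (n + s) / 2 ^ t else 0 := by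
  rw [Nat.and_two_pow_sub_one_eq_mod, Nat.shiftRight_eq_div_pow, Nat.div_div_eq_div_mul]
  have e1 : 2 ^ (t + b * s) * (2 ^ b) ^ n = (2 ^ b) ^ (n + s) * 2 ^ t := by
    rw [← pow_mul, ← pow_add, ← pow_mul, ← pow_add]; congr 1; ring
  have e2 : (2 : ℕ) ^ b = 2 ^ t * 2 ^ (b - t) := by rw [← pow_add]; congr 1; omega
  rw [e1, ← Nat.div_div_eq_div_mul]
  have e3 : ∀ y : ℕ, y / 2 ^ t % 2 ^ b % 2 ^ (b - t) = (y % 2 ^ b) / 2 ^ t := by
    intro y
    rw [Nat.mod_mod_of_dvd _ (by rw [e2]; exact Dvd.intro_left _ rfl), e2,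
      Nat.mod_mul_right_div_self]
  rw [e3]
  split_ifs with h
  · rw [dig_of_sum (2 ^ b) D x hx _ h]
  · have : (∑ i ∈ Finset.range D, x i * (2 ^ b) ^ i) / (2 ^ b) ^ (n + s) = 0 := by
      apply Nat.div_eq_of_lt
      refine (sum_lt D x hx).trans_le (Nat.pow_le_pow_right (Nat.two_pow_pos b) (by omega))
    rw [this]; simp

end Pool.MP_ce2c94_gt.h88
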