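import Mathlib
import Pool.Agent.H.MP_ce2c94_gt.h88.FDig

set_option autoImplicit false

/-!
# Norm and truncation of packed Laurent polynomials in one pass

`tr t I J c`: all coefficients divided by `2^t` (toward zero), restricted to the box. The error has
`l^1` norm exactly `nrm c - 2^t nrm (tr c)`.
-/

namespace Pool.MP_ce2c94_gt.h88

open Pool.Agent.H.MP_ce2c94_gt.h46 AddMonoidAlgebra

theorem okb {P : Par} (hP : P.Ok) : 1 ≤ P.b := hP.h1.trans hP.hb

/-- truncation toward zero -/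
noncomputable def tr (t I J : ℕ) (c : T) : T :=
  ofCoeff (Finsupp.onFinset c.coeff.support
    (fun k => if k.1.natAbs ≤ I ∧ k.2.natAbs ≤ J then (c.coeff k).tdiv (2 ^ t) else 0)
    (fun k hk => Finsupp.mem_support_iff.2 fun h => hk (by rw [h]; simp)))

theorem coeff_tr (t I J : ℕ) (c : T) (k : ℤ × ℤ) : (tr t I J c).coeff k
    = if k.1.natAbs ≤ I ∧ k.2.natAbs ≤ J then (c.coeff k).tdiv (2 ^ t) else 0 := rfl

theorem tr_box (t I J : ℕ) (c : T) : InBox (tr t I J c) I J := by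
  intro k hk
  rw [coeff_tr] at hk
  by_contra h
  exact hk (if_neg h)

theorem tr_supp (t I J : ℕ) (c : T) : (tr t I J c).coeff.support ⊆ c.coeff.support := by
  intro k hk
  rw [Finsupp.mem_support_iff, coeff_tr] at hk
  rw [Finsupp.mem_support_iff]
  intro h
  apply hk
  rw [h]; simp

theorem tr_nrm (t I J : ℕ) (c : T) :
    nrm (c - ((2 : ℤ) ^ t) • tr t I J c) + 2 ^ t * nrm (tr t I J c) = nrm c := by
  classical
  rw [nrm_eq (c - ((2 : ℤ) ^ t) • tr t I J c) (s := c.coeff.support) (by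
      intro k hk
      rw [Finsupp.mem_support_iff, coeff_sub, coeff_smul, Finsupp.sub_apply, Finsupp.smul_apply] at hk
      rw [Finsupp.mem_support_iff]
      intro h
      apply hk
      rw [coeff_tr, h]; simp),
    nrm_eq (tr t I J c) (tr_supp t I J c), nrm, Finset.mul_sum, ← Finset.sum_add_distrib]
  refine Finset.sum_congr rfl fun k _ => ?_
  rw [coeff_sub, coeff_smul, Finsupp.sub_apply, Finsupp.smul_apply, coeff_tr]
  generalize c.coeff k = x
  split_ifs with h
  · have e1 : x - (2 : ℤ) ^ t • x.tdiv (2 ^ t) = x.tmod (2 ^ t) := by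
      have := Int.mul_tdiv_add_tmod x (2 ^ t)
      rw [smul_eq_mul]; linarith
    have e2 : (2 : ℤ) ^ t = ((2 ^ t : ℕ) : ℤ) := by push_cast; ring
    rw [e1, Int.natAbs_tdiv, e2, Int.natAbs_natCast]
    rcases Int.natAbs_eq x with h1 | h1
    · have : x.tmod ((2 ^ t : ℕ) : ℤ) = ((x.natAbs % 2 ^ t : ℕ) : ℤ) := by
        conv_lhs => rw [h1]
        exact Int.ofNat_tmod _ _
      rw [this, Int.natAbs_natCast]
      exact Nat.mod_add_div _ _
    · have : x.tmod ((2 ^ t : ℕ) : ℤ) = -((x.natAbs % 2 ^ t : ℕ) : ℤ) := by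
        conv_lhs => rw [h1]
        rw [Int.neg_tmod]
        congr 1
      rw [this, Int.natAbs_neg, Int.natAbs_natCast]
      exact Nat.mod_add_div _ _
  · simp

theorem tdiv_toNat (x : ℤ) (t : ℕ) : (x.tdiv (2 ^ t)).toNat = x.toNat / 2 ^ t := by
  have e2 : (2 : ℤ) ^ t = ((2 ^ t : ℕ) : ℤ) := by push_cast; ring
  rw [e2]
  rcases le_total 0 x with h | h
  · obtain ⟨n, rfl⟩ := Int.eq_ofNat_of_zero_le h
    rw [← Int.ofNat_tdiv, Int.toNat_natCast, Int.toNat_natCast]
  · obtain ⟨n, hn⟩ := Int.eq_ofNat_of_zero_le (by omega : 0 ≤ -x)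
    have hx : x = -(n : ℤ) := by omega
    rw [hx, Int.neg_tdiv, ← Int.ofNat_tdiv]
    have : (-(n : ℤ)).toNat = 0 := by omega
    rw [this, Nat.zero_div]
    exact Int.toNat_of_nonpos (neg_nonpos.2 (Int.natCast_nonneg _))

theorem dg_tr {c : T} {W I J I' J' t n : ℕ} (hW : 2 * I + 1 ≤ W) (hI : I' ≤ I) (hJ : J' ≤ J) :
    dg (tr t I' J' c) W I' J' n = if n % W < 2 * I' + 1 ∧ n / W < 2 * J' + 1 then
      (dg c W I J (n + ((I - I') + W * (J - J')))).tdiv (2 ^ t) else 0 := by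
  rw [dg, coeff_tr]
  have hiff : ((((n % W : ℕ) : ℤ) - I').natAbs ≤ I' ∧ (((n / W : ℕ) : ℤ) - J').natAbs ≤ J')
      ↔ (n % W < 2 * I' + 1 ∧ n / W < 2 * J' + 1) := by
    generalize n % W = x
    generalize n / W = y
    omega
  simp only [hiff]
  split_ifs with h
  · have e0 : n + ((I - I') + W * (J - J')) = (n % W + (I - I')) + W * (n / W + (J - J')) := by
      have := Nat.mod_add_div n W
      rw [Nat.mul_add]
      omega
    have hlt : n % W + (I - I') < W := by omega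
    have e1 : (n + ((I - I') + W * (J - J'))) % W = n % W + (I - I') := by
      rw [e0, Nat.add_mul_mod_self_left, Nat.mod_eq_of_lt hlt]
    have e2 : (n + ((I - I') + W * (J - J'))) / W = n / W + (J - J') := by
      rw [e0, Nat.add_mul_div_left _ _ (by omega), Nat.div_eq_of_lt hlt, zero_add]
    rw [dg, e1, e2]
    congr 2
    ext
    · push_cast [Nat.cast_sub hI]; ring
    · push_cast [Nat.cast_sub hJ]; ring
  · rfl

/-- the shifted and masked positive (or negative) part -/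
theorem round_dig {P : Par} (hP : P.Ok) {c : T} {I J I' J' t : ℕ} {g : ℤ → ℕ}
    (hI0 : I ≤ P.I0) (hJ0 : J ≤ P.J0) (hI : I' ≤ I) (hJ : J' ≤ J) (ht : t ≤ P.b)
    (hg : ∀ x : ℤ, g (x.tdiv (2 ^ t)) = g x / 2 ^ t) (hg0 : g 0 = 0)
    (hx : ∀ i < P.D, g (dg c P.W I J i) < 2 ^ P.b) :
    ((∑ i ∈ Finset.range P.D, g (dg c P.W I J i) * (2 ^ P.b) ^ i)
      >>> (t + P.b * ((I - I') + P.W * (J - J')))) &&& (boxMask P (P.b - t) I' J')
      = ∑ n ∈ Finset.range P.D, g (dg (tr t I' J' c) P.W I' J' n) * (2 ^ P.b) ^ n := by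
  have hW : 2 * I + 1 ≤ P.W := by have := hP.hW; omega
  have hD : P.W * (2 * J + 1) ≤ P.D := (Nat.mul_le_mul_left _ (by omega)).trans hP.hJ
  have hD' : P.W * (2 * J' + 1) ≤ P.D := (Nat.mul_le_mul_left _ (by omega)).trans hP.hJ
  refine sum_of_digits (fun n => g (dg (tr t I' J' c) P.W I' J' n)) ?_ ?_
  · refine lt_of_le_of_lt Nat.and_le_left ?_
    rw [Nat.shiftRight_eq_div_pow]
    exact lt_of_le_of_lt (Nat.div_le_self _ _) (sum_lt P.D _ hx)
  · intro n hn
    rw [and_dig, boxMask_dig (okb hP) (Nat.sub_le _ _) (by omega) hD' hn, dg_tr hW hI hJ]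
    split_ifs with h
    · have := shift_dig (b := P.b) (D := P.D) (t := t) (s := (I - I') + P.W * (J - J')) (n := n)
        (x := fun i => g (dg c P.W I J i)) ht hx
      have e0 : n + ((I - I') + P.W * (J - J'))
          = (n % P.W + (I - I')) + P.W * (n / P.W + (J - J')) := by
        have := Nat.mod_add_div n P.W
        rw [Nat.mul_add]
        omega
      have hlt : n + ((I - I') + P.W * (J - J')) < P.D := by
        refine lt_of_lt_of_le ?_ hD
        rw [e0]
        have h1 : n % P.W + (I - I') < P.W := by omega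
        have h2 : n / P.W + (J - J') ≤ 2 * J := by omega
        calc (n % P.W + (I - I')) + P.W * (n / P.W + (J - J'))
            < P.W + P.W * (n / P.W + (J - J')) := Nat.add_lt_add_right h1 _
          _ ≤ P.W + P.W * (2 * J) := Nat.add_le_add_left (Nat.mul_le_mul_left _ h2) _
          _ = P.W * (2 * J + 1) := by ring
      rw [if_pos hlt] at this
      rw [hg]
      exact this
    · rw [Nat.and_zero, hg0]

theorem rep_digits {P : Par} (hP : P.Ok) {c : T} {z : ℤ} {I J : ℕ} (h : Rep P c z I J) :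
    z = ∑ i ∈ Finset.range P.D, dg c P.W I J i * (2 ^ P.b) ^ i := by
  have hz := h.ev
  rw [ev_eq_dg h.box (by have := hP.hW; have := h.hI; omega)
    ((Nat.mul_le_mul_left _ (by have := h.hJ; omega)).trans hP.hJ)] at hz
  exact_mod_cast hz

/-- the masks and sums of one pass -/
theorem core {P : Par} (hP : P.Ok) {c : T} {a I J s t I' J' : ℕ} (h : Rep P c (a : ℤ) I J)
    (hs : nrm c ≤ s) (hs2 : 2 * s + 1 ≤ 2 ^ P.b) (hI : I' ≤ I) (hJ : J' ≤ J) (ht : t ≤ P.b)
    {p n p' n' : ℕ} (hp : p = posF P.b (2 ^ (P.b - 1) * P.R) a) (hn : n = Nat.sub p a)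
    (hp' : p' = Nat.land (Nat.shiftRight p (t + P.b * ((I - I') + P.W * (J - J'))))
      (boxMask P (P.b - t) I' J'))
    (hn' : n' = Nat.land (Nat.shiftRight n (t + P.b * ((I - I') + P.W * (J - J'))))
      (boxMask P (P.b - t) I' J')) :
    nrm c = p % P.B1 + n % P.B1 ∧ Rep P (tr t I' J' c) ((p' : ℤ) - n') I' J' ∧
      nrm (tr t I' J' c) = p' % P.B1 + n' % P.B1 := by
  have hWI : 2 * I + 1 ≤ P.W := by have := hP.hW; have := h.hI; omega
  have hDJ : P.W * (2 * J + 1) ≤ P.D :=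
    (Nat.mul_le_mul_left _ (by have := h.hJ; omega)).trans hP.hJ
  have hWI' : 2 * I' + 1 ≤ P.W := by omega
  have hDJ' : P.W * (2 * J' + 1) ≤ P.D := (Nat.mul_le_mul_left _ (by omega)).trans hDJ
  set f : ℕ → ℤ := fun i => dg c P.W I J i with hf
  set f' : ℕ → ℤ := fun i => dg (tr t I' J' c) P.W I' J' i with hf'
  have hN : nrm c = ∑ i ∈ Finset.range P.D, (f i).natAbs := nrm_eq_dg h.box hWI hDJ
  have hN' : nrm (tr t I' J' c) = ∑ i ∈ Finset.range P.D, (f' i).natAbs :=
    nrm_eq_dg (tr_box t I' J' c) hWI' hDJ'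
  have hNN : nrm (tr t I' J' c) ≤ nrm c := by
    have h1 := tr_nrm t I' J' c
    have h2 : 1 ≤ 2 ^ t := Nat.one_le_two_pow
    nlinarith [Nat.zero_le (nrm (tr t I' J' c)), Nat.zero_le (nrm (c - ((2 : ℤ) ^ t) • tr t I' J' c))]
  have hle : ∀ i < P.D, (f i).natAbs ≤ nrm c := fun i hi => by
    rw [hN]
    exact Finset.single_le_sum (f := fun n => (f n).natAbs) (fun _ _ => Nat.zero_le _)
      (Finset.mem_range.2 hi)
  have hle' : ∀ i < P.D, (f' i).natAbs ≤ nrm c := fun i hi => by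
    refine le_trans ?_ hNN
    rw [hN']
    exact Finset.single_le_sum (f := fun n => (f' n).natAbs) (fun _ _ => Nat.zero_le _)
      (Finset.mem_range.2 hi)
  have hfb : ∀ i < P.D, 2 * |f i| < 2 ^ P.b := fun i hi => by
    have h1 := hle i hi
    have e : (2 : ℤ) ^ P.b = ((2 ^ P.b : ℕ) : ℤ) := by push_cast; ring
    rw [e, Int.abs_eq_natAbs]
    omega
  have ha := rep_digits hP h
  have hO : 2 ^ (P.b - 1) * P.R = 2 ^ (P.b - 1) * ∑ i ∈ Finset.range P.D, 1 * (2 ^ P.b) ^ i := by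
    rw [ones_eq P.b P.D P.R (okb hP) (by rw [← hP.hB1, ← hP.hTD]; exact hP.hR)]
  have ep : p = ∑ i ∈ Finset.range P.D, (f i).toNat * (2 ^ P.b) ^ i := by
    rw [hp]; exact posF_eq (okb hP) hfb ha hO
  have en : n = ∑ i ∈ Finset.range P.D, (-f i).toNat * (2 ^ P.b) ^ i := by
    rw [hn]; exact neg_eq ha ep
  have ep' : p' = ∑ i ∈ Finset.range P.D, (f' i).toNat * (2 ^ P.b) ^ i := by
    rw [hp', ep]
    exact round_dig hP (g := Int.toNat) h.hI h.hJ hI hJ ht (fun x => tdiv_toNat x t) rfl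
      (fun i hi => by
        have h1 : (dg c P.W I J i).natAbs ≤ nrm c := hle i hi
        generalize dg c P.W I J i = y at h1 ⊢
        omega)
  have en' : n' = ∑ i ∈ Finset.range P.D, (-f' i).toNat * (2 ^ P.b) ^ i := by
    rw [hn', en]
    exact round_dig hP (g := fun x => (-x).toNat) h.hI h.hJ hI hJ ht
      (fun x => by rw [← Int.neg_tdiv]; exact tdiv_toNat (-x) t) rfl
      (fun i hi => by
        have h1 : (dg c P.W I J i).natAbs ≤ nrm c := hle i hi
        show (-dg c P.W I J i).toNat < _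
        generalize dg c P.W I J i = y at h1 ⊢
        omega)
  have h2b : 2 ^ P.b - 1 > s := by
    have : 2 ≤ 2 ^ P.b := by
      calc 2 = 2 ^ 1 := rfl
        _ ≤ 2 ^ P.b := Nat.pow_le_pow_right (by norm_num) (okb hP)
    omega
  have key : ∀ F : ℕ → ℤ, ∑ i ∈ Finset.range P.D, (F i).natAbs ≤ s →
      (∑ i ∈ Finset.range P.D, (F i).toNat * (2 ^ P.b) ^ i) % P.B1
        + (∑ i ∈ Finset.range P.D, (-F i).toNat * (2 ^ P.b) ^ i) % P.B1
        = ∑ i ∈ Finset.range P.D, (F i).natAbs := by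
    intro F hF
    have e1 : ∑ i ∈ Finset.range P.D, (F i).natAbs = ∑ i ∈ Finset.range P.D, (F i).toNat
        + ∑ i ∈ Finset.range P.D, (-F i).toNat := by
      rw [← Finset.sum_add_distrib]
      exact Finset.sum_congr rfl fun i _ => by omega
    rw [hP.hB1, mod_sum (by omega), mod_sum (by omega), e1]
  refine ⟨?_, ⟨tr_box t I' J' c, hI.trans h.hI, hJ.trans h.hJ, ?_⟩, ?_⟩
  · rw [ep, en, key f (by rw [← hN]; exact hs), hN]
  · rw [ev_eq_dg (tr_box t I' J' c) hWI' hDJ']
    have : ((p' : ℤ) - n') = ∑ i ∈ Finset.range P.D, f' i * (2 ^ P.b) ^ i := by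
      rw [ep', en']
      push_cast
      rw [← Finset.sum_sub_distrib]
      refine Finset.sum_congr rfl fun i _ => ?_
      rw [← sub_mul]
      congr 1
      omega
    rw [this]
  · rw [ep', en', key f' (by rw [← hN']; exact hNN.trans hs), hN']

end Pool.MP_ce2c94_gt.h88
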