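import Mathlib
import Pool.Agent.H.MP_ce2c94_gt.h88.Fast

set_option autoImplicit false

/-!
# Fast norm and rounding of cells

`normF`, `rndF` do the same as `normC`, `roundC` of `h46.Ball` (rounding toward zero), with few large
intermediate numbers.
-/

namespace Pool.MP_ce2c94_gt.h88

open Pool.Agent.H.MP_ce2c94_gt.h46 AddMonoidAlgebra

/-- the difference of two naturals -/
def subZ (p n : ℕ) : ℤ :=
  match Nat.ble n p with
  | true => Int.ofNat (Nat.sub p n)
  | false => Int.negSucc (Nat.pred (Nat.sub n p))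

theorem subZ_eq (p n : ℕ) : subZ p n = (p : ℤ) - n := by
  unfold subZ
  split
  · rename_i h
    rw [Nat.ble_eq] at h
    have : (Nat.sub p n) = p - n := rfl
    rw [this]
    simp only [Int.ofNat_eq_natCast]
    omega
  · rename_i h
    have h' : ¬ n ≤ p := by
      intro h1
      rw [← Nat.ble_eq] at h1
      rw [h1] at h
      exact absurd h (by simp)
    have : (Nat.pred (Nat.sub n p)) = n - p - 1 := rfl
    rw [this, Int.negSucc_eq]
    omega

/-- the sum of two integers -/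
def addZ (a b : ℤ) : ℤ :=
  match a, b with
  | .ofNat m, .ofNat n => .ofNat (Nat.add m n)
  | .ofNat m, .negSucc n => subZ m (Nat.succ n)
  | .negSucc m, .ofNat n => subZ n (Nat.succ m)
  | .negSucc m, .negSucc n => .negSucc (Nat.succ (Nat.add m n))

theorem addZ_eq (a b : ℤ) : addZ a b = a + b := by
  cases a with
  | ofNat m =>
    cases b with
    | ofNat n => rfl
    | negSucc n =>
      simp only [addZ, subZ_eq, Int.negSucc_eq, Int.ofNat_eq_natCast, Nat.succ_eq_add_one]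
      push_cast
      ring
  | negSucc m =>
    cases b with
    | ofNat n =>
      simp only [addZ, subZ_eq, Int.negSucc_eq, Int.ofNat_eq_natCast, Nat.succ_eq_add_one]
      push_cast
      ring
    | negSucc n => rfl

/-- sum of cells; the common case of equal boxes and precisions is direct -/
def addF (P : Par) (a b : Cell) : Option Cell :=
  match Nat.beq a.p b.p && Nat.beq a.I b.I && Nat.beq a.J b.J with
  | true => some ⟨addZ a.z b.z, a.I, a.J, a.s + b.s, a.e + b.e, a.p⟩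
  | false =>
    forceN (b.p - a.p) fun s => forceN (a.p - b.p) fun t => addC P (preC s a) (preC t b)

/-- one pass: positive and negative parts, exact norm `N`, the truncated parts and their norm -/
def passN {α : Type*} (P : Par) (sh Am m : ℕ) (K : ℕ → ℕ → ℕ → ℕ → α) : α :=
  let p := posF P.b (Nat.mul (Nat.pow 2 (Nat.pred P.b)) P.R) m
  let n := Nat.sub p m
  let p' := Nat.land (Nat.shiftRight p sh) Am
  let n' := Nat.land (Nat.shiftRight n sh) Am
  forceN (Nat.add (Nat.mod p P.B1) (Nat.mod n P.B1)) fun N =>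
  forceN (Nat.add (Nat.mod p' P.B1) (Nat.mod n' P.B1)) fun s' => K p' n' s' N

/-- rounding toward zero: division by `2^t`, restriction to the box `I', J'` -/
def rndF (P : Par) (t I' J' : ℕ) (a : Cell) : Option Cell :=
  match Nat.ble I' a.I && Nat.ble J' a.J && Nat.ble t a.p && Nat.ble t P.b &&
      Nat.ble (2 * a.s + 1) (2 ^ P.b) with
  | false => none
  | true =>
    forceN (t + P.b * ((a.I - I') + P.W * (a.J - J'))) fun sh =>
    match a.z with
    | .ofNat m => passN P sh (boxMask P (P.b - t) I' J') m fun p' n' s' N =>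
      some ⟨subZ p' n', I', J', up P s', (a.e + up P (N - 2 ^ t * s')) / 2 ^ t + 1, a.p - t⟩
    | .negSucc m => passN P sh (boxMask P (P.b - t) I' J') (Nat.succ m) fun p' n' s' N =>
      some ⟨subZ n' p', I', J', up P s', (a.e + up P (N - 2 ^ t * s')) / 2 ^ t + 1, a.p - t⟩

/-- the exact `l^1` norm -/
def absF (P : Par) (m : ℕ) : ℕ :=
  let p := posF P.b (Nat.mul (Nat.pow 2 (Nat.pred P.b)) P.R) m
  Nat.add (Nat.mod p P.B1) (Nat.mod (Nat.sub p m) P.B1)

/-- replaces the norm bound by the computed norm -/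
def normF (P : Par) (a : Cell) : Option Cell :=
  match Nat.ble (2 * a.s + 1) (2 ^ P.b) with
  | false => none
  | true =>
    match a.z with
    | .ofNat m => some ⟨a.z, a.I, a.J, up P (absF P m), a.e, a.p⟩
    | .negSucc m => some ⟨a.z, a.I, a.J, up P (absF P (Nat.succ m)), a.e, a.p⟩

/-- `core` for a polynomial with negative packed value -/
theorem core' {P : Par} (hP : P.Ok) {c : T} {z : ℤ} {I J s t I' J' : ℕ} (h : Rep P c z I J)
    (hs : nrm c ≤ s) (hs2 : 2 * s + 1 ≤ 2 ^ P.b) (hI : I' ≤ I) (hJ : J' ≤ J) (ht : t ≤ P.b)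
    {p n p' n' N s' : ℕ} (hp : p = posF P.b (2 ^ (P.b - 1) * P.R) z.natAbs)
    (hn : n = Nat.sub p z.natAbs)
    (hp' : p' = Nat.land (Nat.shiftRight p (t + P.b * ((I - I') + P.W * (J - J'))))
      (boxMask P (P.b - t) I' J'))
    (hn' : n' = Nat.land (Nat.shiftRight n (t + P.b * ((I - I') + P.W * (J - J'))))
      (boxMask P (P.b - t) I' J')) (hN : N = p % P.B1 + n % P.B1)
    (hs' : s' = p' % P.B1 + n' % P.B1) :
    nrm c = N ∧ ∃ c' : T, Rep P c' (if 0 ≤ z then (p' : ℤ) - n' else (n' : ℤ) - p') I' J' ∧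
      nrm c' = s' ∧ nrm (c - ((2 : ℤ) ^ t) • c') = N - 2 ^ t * s' := by
  have gen : ∀ {d : T} {a : ℕ}, Rep P d (a : ℤ) I J → nrm d ≤ s → a = z.natAbs →
      nrm d = N ∧ ∃ c' : T, Rep P c' ((p' : ℤ) - n') I' J' ∧
      nrm c' = s' ∧ nrm (d - ((2 : ℤ) ^ t) • c') = N - 2 ^ t * s' := by
    intro d a hd hds ha
    subst ha
    obtain ⟨h1, h2, h3⟩ := core hP hd hds hs2 hI hJ ht hp hn hp' hn'
    refine ⟨h1.trans hN.symm, tr t I' J' d, h2, h3.trans hs'.symm, ?_⟩
    have h4 := tr_nrm t I' J' d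
    rw [h1, ← hN, h3, ← hs'] at h4
    omega
  rcases le_or_gt 0 z with hz | hz
  · rw [if_pos hz]
    exact gen (by rw [Int.natAbs_of_nonneg hz]; exact h) hs rfl
  · rw [if_neg (not_le.2 hz)]
    obtain ⟨h1, c', h2, h3, h4⟩ := gen (d := -c) (a := z.natAbs) (by
      have := h.neg
      rwa [← Int.ofNat_natAbs_of_nonpos hz.le] at this) (by rw [nrm_neg]; exact hs) rfl
    rw [nrm_neg] at h1
    refine ⟨h1, -c', ?_, by rw [nrm_neg]; exact h3, ?_⟩
    · have := h2.neg
      rwa [neg_sub] at this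
    · rw [← h4, ← nrm_neg]
      congr 1
      rw [smul_neg]
      abel

section
variable {P : Par} {W : Type*} [NormedCommRing W] [NormedAlgebra ℝ W] {A : Alg P W}

theorem addF_sound {a b c : Cell} {x y : W} (ha : Enc A x a) (hb : Enc A y b)
    (h : addF P a b = some c) : Enc A (x + y) c := by
  unfold addF at h
  split at h
  · rename_i hc
    simp only [Bool.and_eq_true, Nat.beq_eq] at hc
    obtain ⟨⟨h1, h2⟩, h3⟩ := hc
    rw [Option.some.injEq] at h
    subst h
    obtain ⟨u, u1, u2, u3, u4⟩ := ha.ex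
    obtain ⟨v, v1, v2, v3, v4⟩ := hb.ex
    rw [← h2, ← h3] at v1
    rw [← h1] at v4
    refine ⟨u + v, ?_, (nrm_add _ _).trans (Nat.add_le_add u2 v2), ?_, ?_⟩
    · show Rep P (u + v) (addZ a.z b.z) a.I a.J
      rw [addZ_eq]
      exact u1.add v1
    · rw [map_add]
      show _ ≤ ((a.s + b.s : ℕ) : ℝ)
      push_cast
      exact (norm_add_le _ _).trans (add_le_add u3 v3)
    · show ‖((2 : ℝ) ^ a.p) • (x + y) - A.ι (u + v)‖ ≤ ((a.e + b.e : ℕ) : ℝ)
      push_cast
      have e1 : ((2 : ℝ) ^ a.p) • (x + y) - A.ι (u + v)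
          = (((2 : ℝ) ^ a.p) • x - A.ι u) + (((2 : ℝ) ^ a.p) • y - A.ι v) := by
        rw [map_add, smul_add]; abel
      rw [e1]
      exact (norm_add_le _ _).trans (add_le_add u4 v4)
  · rw [forceN_eq, forceN_eq] at h
    exact addC_sound (preC_sound ha) (preC_sound hb) h

theorem Enc.round {t I' J' : ℕ} {a c : Cell} {x : W} {u c' : T} (ht : t ≤ a.p)
    (u1 : Rep P u a.z a.I a.J) (u4 : ‖((2 : ℝ) ^ a.p) • x - A.ι u‖ ≤ a.e)
    {z' : ℤ} {s' r : ℕ} (rc : Rep P c' z' I' J') (sc : nrm c' = s') (hI : I' ≤ a.I)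
    (hJ : J' ≤ a.J) (sd : nrm (u - ((2 : ℤ) ^ t) • c') = r)
    (hc : c = ⟨z', I', J', up P s', (a.e + up P r) / 2 ^ t + 1, a.p - t⟩) : Enc A x c := by
  subst hc
  have hbox : InBox (u - ((2 : ℤ) ^ t) • c') a.I a.J :=
    u1.box.sub ((rc.box.mono hI hJ).smul _)
  have hid : ‖A.ι (u - ((2 : ℤ) ^ t) • c')‖ ≤ up P r := A.bd' hbox u1.hI u1.hJ sd.le
  refine ⟨c', rc, sc.le.trans (le_up P _), A.bd' rc.box rc.hI rc.hJ sc.le, ?_⟩
  show ‖((2 : ℝ) ^ (a.p - t)) • x - A.ι c'‖ ≤ (((a.e + up P r) / 2 ^ t + 1 : ℕ) : ℝ)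
  have e1 : ((2 : ℝ) ^ (a.p - t)) • x - A.ι c'
      = ((2 : ℝ) ^ t)⁻¹ • ((((2 : ℝ) ^ a.p) • x - A.ι u)
        + A.ι (u - ((2 : ℤ) ^ t) • c')) := by
    rw [map_sub A.ι u, map_zsmul, sub_add_sub_cancel, smul_sub, smul_smul,
      ← Int.cast_smul_eq_zsmul ℝ ((2 : ℤ) ^ t) (A.ι c'), smul_smul]
    have h2t : ((2 : ℝ) ^ t) ≠ 0 := by positivity
    have e2 : ((2 : ℝ) ^ t)⁻¹ * 2 ^ a.p = 2 ^ (a.p - t) := by
      have : a.p = (a.p - t) + t := by omega
      conv_lhs => rw [this, pow_add]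
      field_simp
    have e3 : ((2 : ℝ) ^ t)⁻¹ * (((2 : ℤ) ^ t : ℤ) : ℝ) = 1 := by
      push_cast
      exact inv_mul_cancel₀ h2t
    rw [e2, e3, one_smul]
  rw [e1, norm_smul, norm_inv, Real.norm_of_nonneg (by positivity)]
  have h3 : ‖(((2 : ℝ) ^ a.p) • x - A.ι u) + A.ι (u - ((2 : ℤ) ^ t) • c')‖
      ≤ (a.e : ℝ) + up P r := (norm_add_le _ _).trans (add_le_add u4 hid)
  have h4 : ((a.e + up P r : ℕ) : ℝ) < (((a.e + up P r) / 2 ^ t : ℕ) + 1 : ℝ) * 2 ^ t := by
    have h := Nat.lt_div_mul_add (a := a.e + up P r) (b := 2 ^ t) (Nat.two_pow_pos _)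
    have : ((a.e + up P r : ℕ) : ℝ)
        < (((a.e + up P r) / 2 ^ t * 2 ^ t + 2 ^ t : ℕ) : ℝ) := by exact_mod_cast h
    push_cast at this ⊢
    linarith
  rw [inv_mul_le_iff₀ (by positivity)]
  push_cast at h4 ⊢
  linarith

theorem rndF_sound (hP : P.Ok) {t I' J' : ℕ} {a c : Cell} {x : W} (ha : Enc A x a)
    (h : rndF P t I' J' a = some c) : Enc A x c := by
  unfold rndF at h
  split at h
  · exact absurd h (by simp)
  · rename_i h0
    simp only [Bool.and_eq_true, Nat.ble_eq] at h0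
    obtain ⟨⟨⟨⟨hI, hJ⟩, ht⟩, htb⟩, hs⟩ := h0
    rw [forceN_eq] at h
    obtain ⟨u, u1, u2, u3, u4⟩ := ha.ex
    split at h
    · rename_i m hm
      simp only [passN, forceN_eq, Option.some.injEq] at h
      obtain ⟨_, c', r1, r2, r3⟩ := core' hP u1 u2 hs hI hJ htb rfl rfl rfl rfl rfl rfl
      rw [if_pos (by rw [hm]; exact Int.natCast_nonneg m), ← subZ_eq, hm] at r1
      rw [hm] at r2 r3
      exact Enc.round ht u1 u4 r1 r2 hI hJ r3 h.symm
    · rename_i m hm
      simp only [passN, forceN_eq, Option.some.injEq] at h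
      obtain ⟨_, c', r1, r2, r3⟩ := core' hP u1 u2 hs hI hJ htb rfl rfl rfl rfl rfl rfl
      rw [if_neg (by rw [hm]; exact not_le.2 (Int.negSucc_lt_zero m)), ← subZ_eq, hm] at r1
      rw [hm] at r2 r3
      exact Enc.round ht u1 u4 r1 r2 hI hJ r3 h.symm

theorem normF_sound (hP : P.Ok) {a c : Cell} {x : W} (ha : Enc A x a)
    (h : normF P a = some c) : Enc A x c := by
  unfold normF at h
  split at h
  · exact absurd h (by simp)
  · rename_i hs
    rw [Nat.ble_eq] at hs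
    obtain ⟨u, u1, u2, u3, u4⟩ := ha.ex
    obtain ⟨hN, _⟩ := core' (t := 0) (I' := a.I) (J' := a.J) hP u1 u2 hs le_rfl le_rfl
      (Nat.zero_le _) rfl rfl rfl rfl rfl rfl
    split at h
    · rename_i m hm
      rw [Option.some.injEq] at h
      subst h
      have h1 : nrm u ≤ absF P m := by
        rw [hN, hm]; exact le_rfl
      exact ⟨u, u1, h1.trans (le_up P _), A.bd' u1.box u1.hI u1.hJ h1, u4⟩
    · rename_i m hm
      rw [Option.some.injEq] at h
      subst h
      have h1 : nrm u ≤ absF P (Nat.succ m) := by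
        rw [hN, hm]; exact le_rfl
      exact ⟨u, u1, h1.trans (le_up P _), A.bd' u1.box u1.hI u1.hJ h1, u4⟩

end

end Pool.MP_ce2c94_gt.h88
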