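import Mathlib.Tactic

/-!
# The shrinker polynomial through the cubic tension field

`x y z` are the components of `X`, `a` stands for the derivative in `u`, `b` for the derivative in
`v`, `aa ab bb` for the second derivatives; `m` is the modulus `μ`.
-/

namespace D3h88

variable {R : Type*} [CommRing R]

/-- first component of the normal `X_u × X_v` -/
def nx (ya yb za zb : R) : R := ya * zb - za * yb

/-- The identity `μ P(X) = S⟨T,n⟩ - d⟨μ X_uu - X_vv, n⟩ - 2 μ F ⟨X_uv, n⟩ - (d² + μ F²)⟨X,n⟩/2`,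
multiplied by `8` to be free of denominators: `S2 = 2 S = μ E + G`, `d2 = 2 d = μ E - G`,
`T4 = 4 T`. -/
theorem shrinker_identity (m x y z xa ya za xb yb zb xaa yaa zaa xab yab zab xbb ybb zbb : R) :
    let E := xa * xa + ya * ya + za * za
    let F := xa * xb + ya * yb + za * zb
    let G := xb * xb + yb * yb + zb * zb
    let n1 := ya * zb - za * yb
    let n2 := za * xb - xa * zb
    let n3 := xa * yb - ya * xb
    let S2 := m * E + G
    let d2 := m * E - G
    let pa := x * xa + y * ya + z * za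
    let pb := x * xb + y * yb + z * zb
    let T1 := 4 * (m * xaa + xbb) - 2 * (m * pa * xa + pb * xb) + S2 * x
    let T2 := 4 * (m * yaa + ybb) - 2 * (m * pa * ya + pb * yb) + S2 * y
    let T3 := 4 * (m * zaa + zbb) - 2 * (m * pa * za + pb * zb) + S2 * z
    let Xn := x * n1 + y * n2 + z * n3
    8 * m * (G * (xaa * n1 + yaa * n2 + zaa * n3) - 2 * F * (xab * n1 + yab * n2 + zab * n3)
        + E * (xbb * n1 + ybb * n2 + zbb * n3)) + 4 * m * (E * G - F * F) * Xn =
      S2 * (T1 * n1 + T2 * n2 + T3 * n3)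
        - 4 * d2 * ((m * xaa - xbb) * n1 + (m * yaa - ybb) * n2 + (m * zaa - zbb) * n3)
        - 16 * m * F * (xab * n1 + yab * n2 + zab * n3)
        - (d2 * d2 + 4 * m * F * F) * Xn := by
  intro E F G n1 n2 n3 S2 d2 pa pb T1 T2 T3 Xn
  have hpa : xa * n1 + ya * n2 + za * n3 = 0 := by simp only [n1, n2, n3]; ring
  have hpb : xb * n1 + yb * n2 + zb * n3 = 0 := by simp only [n1, n2, n3]; ring
  have hT : T1 * n1 + T2 * n2 + T3 * n3 =
      4 * ((m * xaa + xbb) * n1 + (m * yaa + ybb) * n2 + (m * zaa + zbb) * n3) + S2 * Xn := by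
    simp only [T1, T2, T3, Xn]
    linear_combination (-2 * m * pa) * hpa + (-2 * pb) * hpb
  rw [hT]
  simp only [S2, d2]
  clear_value E F G n1 n2 n3 Xn
  ring

end D3h88
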